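import Pool.Agent.Run7.h916.LFTwoEndedS

set_option autoImplicit false

/-!
Let `Γ` have a locally finite normal subgroup with virtually infinite cyclic quotient. If `S` has an
element of finite order, or if `Γ` has no locally finite normal subgroup with cyclic quotient, then
under hypothesis (H) the Borel chromatic index of the Schreier graph is `|S|`.
-/

open Run7.h916

theorem Pool.Agent.Results.MP_1822da_lc.LFByTwoEnded.result.{u, v}
    (Γ : Type u) [Group Γ] (S : Finset Γ)
    (X : Type v) [MulAction Γ X] [MeasurableSpace X] [StandardBorelSpace X]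
    (hS : IsMarking S) (hH : HypH S X)
    (L : Subgroup Γ) (hLn : L.Normal) (hL : IsLocallyFinite L)
    (hΓ : VirtuallyInfiniteCyclic (Γ ⧸ L))
    (h : (∃ z ∈ S, IsOfFinOrder z) ∨
      ∀ (K : Subgroup Γ) (_ : K.Normal), IsLocallyFinite K → ¬ IsCyclic (Γ ⧸ K)) :
    borelChromaticIndex (schreierGraph S X) = S.card :=
  chromaticIndex_lf_twoEndedS hS hH hLn hL hΓ h
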