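import Pool.Agent.Run7.h916.NilThm

set_option autoImplicit false

/-!
Groups which are (locally finite)-by-nilpotent but not (locally finite)-by-cyclic: under hypothesis
(H) the Borel chromatic index of the Schreier graph is `|S|`, for every marking `S` such that
`|S|` is not `6`, or the nilpotent quotient has class at most two, or some homomorphism to `ℤ/2`
which is trivial on the elements of finite order is nontrivial on a number of elements of `S` that
is not divisible by `4`.
-/

open Run7.h916
open scoped commutatorElement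

theorem Pool.Agent.Results.MP_1822da_lc.Nilpotent.result.{u, v}
    (Γ : Type u) [Group Γ] (S : Finset Γ)
    (X : Type v) [MulAction Γ X] [MeasurableSpace X] [StandardBorelSpace X]
    (hS : IsMarking S) (hH : HypH S X)
    (L : Subgroup Γ) (hLn : L.Normal) (hL : IsLocallyFinite L)
    (hnil : Group.IsNilpotent (Γ ⧸ L))
    (hcyc : ∀ (K : Subgroup Γ) (_ : K.Normal), IsLocallyFinite K → ¬ IsCyclic (Γ ⧸ K))
    (hex : S.card ≠ 6 ∨ (∀ x y w : Γ, ⁅⁅x, y⁆, w⁆ ∈ L) ∨
      ∃ χ : Γ →* Multiplicative (ZMod 2), (∀ x, IsOfFinOrder x → χ x = 1) ∧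
        ¬ 4 ∣ Set.ncard {s : Γ | s ∈ S ∧ χ s ≠ 1}) :
    borelChromaticIndex (schreierGraph S X) = S.card :=
  chromaticIndex_nilpotent hS hH hLn hL hnil hcyc hex
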