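import Pool.Agent.Run7.h916.ComThm

set_option autoImplicit false

/-!
The block theorem: assume hypothesis (H), and divide the elements of infinite order of `S` into
symmetric blocks, the block of `s` being given by a label `b s`. If every block is of one of three
types (parity, star, nilpotent), then the Borel chromatic index of the Schreier graph is `|S|`. In
parity and star blocks two kinds of pairs of directions are used: nilpotent pairs, and pairs whose
commutator has finite order.
-/

open Run7.h916

theorem Pool.Agent.Results.MP_1822da_lc.PairBlocks.result.{u, v}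
    (Γ : Type u) [Group Γ] (S : Finset Γ)
    (X : Type v) [MulAction Γ X] [MeasurableSpace X] [StandardBorelSpace X]
    (hS : IsMarking S) (hH : HypH S X)
    (b : Γ → ℕ) (hb : ∀ s ∈ S, b s⁻¹ = b s)
    (h : ∀ n, ParityBlock' {s | s ∈ S ∧ ¬ IsOfFinOrder s ∧ b s = n} ∨
      StarBlock' {s | s ∈ S ∧ ¬ IsOfFinOrder s ∧ b s = n} ∨
      NilpotentBlock {s | s ∈ S ∧ ¬ IsOfFinOrder s ∧ b s = n}) :
    borelChromaticIndex (schreierGraph S X) = S.card :=
  chromaticIndex_types_com hS hH b hb (fun n => Or.inr (h n))
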