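import Pool.Agent.Run7.h916.TorFinal

set_option autoImplicit false

/-!
Assume hypothesis (H), and divide `S` into symmetric parts, the part of `s` being given by a label
`b s`. If in every part either every element of infinite order has a partner of finite order as in
`TorsionBlock'`, or there is a common hub `z` of finite order as in `TorsionStar'`, then the Borel
chromatic index of the Schreier graph is `|S|`.
-/

open Run7.h916

theorem Pool.Agent.Results.MP_1822da_lc.TorsionParts.result.{u, v}
    (Γ : Type u) [Group Γ] (S : Finset Γ)
    (X : Type v) [MulAction Γ X] [MeasurableSpace X] [StandardBorelSpace X]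
    (hS : IsMarking S) (hH : HypH S X)
    (b : Γ → ℕ) (hb : ∀ s ∈ S, b s⁻¹ = b s)
    (h : ∀ n, TorsionBlock' (S.filter fun s => b s = n)
        {s | s ∈ S ∧ ¬ IsOfFinOrder s ∧ b s = n} ∨
      ∃ z ∈ S, b z = n ∧ TorsionStar' z {s | s ∈ S ∧ ¬ IsOfFinOrder s ∧ b s = n}) :
    borelChromaticIndex (schreierGraph S X) = S.card :=
  chromaticIndex_types3_com hS hH b hb (fun n => (h n).imp id
    (fun h => Or.inr (Or.inr (Or.inr h))))
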